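import Pool.Agent.MP_d9582c_gt.H34.Cone

/-!
The relations between the two differentials of the double complex and the contraction of the rows.
-/

open scoped Manifold ContDiff Topology ENNReal
open MeasureTheory Set Filter

noncomputable section

namespace Pool.Agent.MP_d9582c_gt.H61

open H34 H34.Geo

universe u v

section Signs

variable {m : ℕ} {s : Finset (Fin m)} {a b : Fin m}

/-- The sign of a transposition. -/
def eps (b a : Fin m) : ℂ := if b < a then -1 else 1

lemma eps_self (a : Fin m) : eps a a = 1 := by simp [eps]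

lemma eps_swap (h : a ≠ b) : eps a b = -eps b a := by
  unfold eps
  rcases lt_or_gt_of_ne h with h | h
  · simp [h, h.not_gt]
  · simp [h, h.not_gt]

lemma eps_sq (a b : Fin m) : eps a b * eps a b = 1 := by
  unfold eps; split_ifs <;> simp

lemma sgn_sq (a : Fin m) (s : Finset (Fin m)) : sgn a s * sgn a s = 1 := by
  rw [sgn, ← mul_pow]; simp

lemma norm_sgn (a : Fin m) (s : Finset (Fin m)) : ‖sgn a s‖ = 1 := by simp [sgn]

lemma sgn_insert (a : Fin m) (h : b ∉ s) : sgn a (insert b s) = sgn a s * eps b a := by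
  unfold sgn eps
  rw [Finset.filter_insert]
  split_ifs with hb
  · rw [Finset.card_insert_of_notMem (fun h' => h (Finset.mem_filter.1 h').1), pow_succ]
  · simp

lemma sgn_erase (a : Fin m) (h : b ∈ s) : sgn a (s.erase b) = sgn a s * eps b a := by
  have := sgn_insert a (Finset.notMem_erase b s)
  rw [Finset.insert_erase h] at this
  rw [this, mul_assoc, eps_sq, mul_one]

lemma car1 (s : Finset (Fin m)) (F : Finset (Fin m) → ℂ) :
    ∑ a ∈ s, sgn a s * ∑ b ∈ s.erase a, sgn b (s.erase a) * F ((s.erase a).erase b) = 0 := by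
  set f : Fin m → Fin m → ℂ := fun a b =>
    if b = a then 0 else sgn a s * sgn b s * eps a b * F ((s.erase a).erase b) with hf
  have h1 : ∀ a ∈ s, sgn a s * ∑ b ∈ s.erase a, sgn b (s.erase a) * F ((s.erase a).erase b) =
      ∑ b ∈ s, f a b := fun a ha => by
    rw [← Finset.sum_erase s (f := f a) (a := a) (by simp [hf]), Finset.mul_sum]
    refine Finset.sum_congr rfl fun b hb => ?_
    simp only [hf, if_neg (Finset.ne_of_mem_erase hb), sgn_erase b ha]
    ring
  have h2 : ∀ a b, f a b = -f b a := fun a b => by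
    by_cases h : a = b
    · simp [hf, h]
    · simp only [hf, if_neg h, if_neg (Ne.symm h), eps_swap h, Finset.erase_right_comm (a := a)]
      ring
  rw [Finset.sum_congr rfl h1]
  have h3 : ∑ a ∈ s, ∑ b ∈ s, f a b = -∑ a ∈ s, ∑ b ∈ s, f a b := by
    conv_lhs => rw [Finset.sum_comm]
    simp only [← Finset.sum_neg_distrib]
    exact Finset.sum_congr rfl fun a _ => Finset.sum_congr rfl fun b _ => h2 b a
  linear_combination h3 / 2

lemma car2 (s : Finset (Fin m)) (c : Fin m → ℂ) (F : Finset (Fin m) → ℂ) :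
    ∑ a ∈ s, sgn a s * ∑ b ∈ (s.erase a)ᶜ, c b * (sgn b (s.erase a) * F (insert b (s.erase a))) +
      ∑ b ∈ sᶜ, c b * (sgn b s * ∑ a ∈ insert b s, sgn a (insert b s) * F ((insert b s).erase a)) =
      (∑ b, c b) * F s := by
  have h1 : ∀ a ∈ s, sgn a s * ∑ b ∈ (s.erase a)ᶜ,
      c b * (sgn b (s.erase a) * F (insert b (s.erase a))) = c a * F s +
        ∑ b ∈ sᶜ, c b * sgn a s * sgn b s * eps a b * F (insert b (s.erase a)) := fun a ha => by
    rw [Finset.compl_erase, Finset.sum_insert (by simpa using ha), Finset.insert_erase ha,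
      sgn_erase a ha, eps_self, mul_add, Finset.mul_sum]
    congr 1
    · linear_combination c a * F s * sgn_sq a s
    · refine Finset.sum_congr rfl fun b _ => ?_
      rw [sgn_erase b ha]; ring
  have h2 : ∀ b ∈ sᶜ, c b * (sgn b s * ∑ a ∈ insert b s,
      sgn a (insert b s) * F ((insert b s).erase a)) = c b * F s -
        ∑ a ∈ s, c b * sgn a s * sgn b s * eps a b * F (insert b (s.erase a)) := fun b hb => by
    have hb' : b ∉ s := Finset.mem_compl.1 hb
    rw [Finset.sum_insert hb', Finset.erase_insert hb', sgn_insert b hb', eps_self, mul_add,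
      mul_add, sub_eq_add_neg, ← Finset.sum_neg_distrib, Finset.mul_sum, Finset.mul_sum]
    congr 1
    · linear_combination c b * F s * sgn_sq b s
    · refine Finset.sum_congr rfl fun a ha => ?_
      have hab : a ≠ b := fun h => hb' (h ▸ ha)
      rw [sgn_insert a hb', Finset.erase_insert_of_ne hab.symm, eps_swap hab]; ring
  rw [Finset.sum_congr rfl h1, Finset.sum_congr rfl h2, Finset.sum_add_distrib,
    Finset.sum_sub_distrib, Finset.sum_comm (s := sᶜ), ← Finset.sum_add_sum_compl s c, add_mul,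
    Finset.sum_mul, Finset.sum_mul]
  ring

end Signs

variable {n : ℕ} {M : Type u} [TopologicalSpace M] [ChartedSpace (E n) M]
  {G : Type v} [Group G] [MulAction G M] [IsManifold 𝓘(ℝ, E n) ∞ M] [MeasurableSpace M]
  {X : Geo n G M} {s : Finset (Fin X.m)} {x : M} {p : ℕ} {a : Fin X.m}

lemma mem_Vs_insert (hx : x ∈ X.Vs s) (ha : x ∈ X.V a) : x ∈ X.Vs (insert a s) :=
  fun b hb => by
    rcases Finset.mem_insert.1 hb with rfl | hb
    exacts [ha, hx b hb]

/-- One term of the contraction. -/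
def term (σ : X.Sec) (s : Finset (Fin X.m)) (p : ℕ) (a : Fin X.m) (y : M) : Alt n p :=
  X.φ a y ^ 2 • sgn a s • σ.v (insert a s) p y

lemma term_spec (σ : X.Sec) (p : ℕ) (a : Fin X.m) (hx : x ∈ X.Vs s) :
    SmoothAt (term σ s p a) x ∧ extD (term σ s p a) x =
      X.φ a x ^ 2 • sgn a s • extD (σ.v (insert a s) p) x +
        wedge (dfun n (fun y => X.φ a y ^ 2) x) (sgn a s • σ.v (insert a s) p x) := by
  by_cases h : x ∈ X.V a
  · have h1 := Sec.smooth σ p (mem_Vs_insert hx h)
    refine ⟨(h1.smul (sgn a s)).fun_smul (smooth_φ_sq a x), ?_⟩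
    rw [← extD_smul h1]
    exact extD_fun_smul (smooth_φ_sq a x) (h1.smul (sgn a s))
  · have e : term σ s p a =ᶠ[𝓝 x] 0 := by
      filter_upwards [φ_sq_eventually h] with y hy
      rw [term, show X.φ a y ^ 2 = 0 from hy, alt_zero_rsmul]; rfl
    refine ⟨(smoothAt_zero x).congr e, ?_⟩
    rw [extD_congr e, extD_zero, dfun_φ_sq_eq_zero h, φ_eq_zero h]
    simp

variable (X) in
/-- The contraction of the rows. -/
def Q : Module.End ℂ X.Sec where
  toFun σ := Sec.mk (fun s p x => ∑ a ∈ sᶜ, term σ s p a x) fun s p x =>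
    ⟨fun hx => smoothAt_sum fun a _ => (term_spec σ p a hx).1, fun hx =>
      Finset.sum_eq_zero fun a _ => by
        rw [term, Sec.zero σ p fun h => hx (Vs_mono (Finset.subset_insert a s) h)]; simp⟩
  map_add' σ τ := Sec.ext fun s p x _ => by simp [term, Finset.sum_add_distrib]
  map_smul' c σ := Sec.ext fun s p x _ => by
    simp only [Sec.mk_v, term, Sec.smul_val, RingHom.id_apply, Finset.smul_sum]
    refine Finset.sum_congr rfl fun a _ => ?_
    ext v
    simp only [ContinuousAlternatingMap.smul_apply, smul_eq_mul, Complex.real_smul]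
    ring

lemma Q_apply (σ : X.Sec) (s p x) :
    (Q X σ).v s p x = ∑ a ∈ sᶜ, X.φ a x ^ 2 • sgn a s • σ.v (insert a s) p x := rfl

lemma dd_dd : X.dd * X.dd = 0 := LinearMap.ext fun σ => Sec.ext fun s p x hx => by
  rw [Module.End.mul_apply]
  match p with
  | 0 => rfl
  | 1 => rw [dd_succ _ _ hx, dd_zero, extD_zero]; simp
  | p + 2 =>
    have e : (X.dd σ).v s (p + 1) =ᶠ[𝓝 x] (-1 : ℂ) ^ s.card • extD (σ.v s p) := by
      filter_upwards [(isOpen_Vs s).mem_nhds hx] with y hy using dd_succ σ p hy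
    rw [dd_succ _ _ hx, extD_congr e, extD_smul (smoothAt_extD (Sec.eventually_smooth σ p hx)),
      extD_extD (Sec.eventually_smooth σ p hx)]
    simp

lemma del_del : X.del * X.del = 0 := LinearMap.ext fun σ => Sec.ext fun s p x hx => by
  rw [Module.End.mul_apply, del_apply _ _ hx,
    Finset.sum_congr rfl fun a _ => by rw [del_apply _ _ (Vs_mono (s.erase_subset a) hx)]]
  ext v
  simpa [ContinuousAlternatingMap.sum_apply] using car1 s fun t => σ.v t p x v

lemma dd_del : X.dd * X.del + X.del * X.dd = 0 :=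
  LinearMap.ext fun σ => Sec.ext fun s p x hx => by
    rw [LinearMap.add_apply, Module.End.mul_apply, Module.End.mul_apply, Sec.add_val,
      del_apply _ _ hx]
    cases p with
    | zero => simp [dd_zero]
    | succ p =>
      have e : (X.del σ).v s p =ᶠ[𝓝 x] fun y => ∑ a ∈ s, (sgn a s • σ.v (s.erase a) p) y := by
        filter_upwards [(isOpen_Vs s).mem_nhds hx] with y hy using del_apply σ p hy
      have hs : ∀ a, SmoothAt (σ.v (s.erase a) p) x :=
        fun a => Sec.smooth σ p (Vs_mono (s.erase_subset a) hx)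
      rw [dd_succ _ _ hx, extD_congr e, extD_sum fun a _ => (hs a).smul _, Finset.smul_sum,
        ← Finset.sum_add_distrib]
      refine Finset.sum_eq_zero fun a ha => ?_
      rw [extD_smul (hs a), dd_succ _ _ (Vs_mono (s.erase_subset a) hx),
        ← Finset.card_erase_add_one ha, pow_succ]
      ext v
      simp only [ContinuousAlternatingMap.add_apply, ContinuousAlternatingMap.smul_apply,
        smul_eq_mul]
      simp [mul_left_comm]

lemma e0_e0 : X.e0 * X.e0 = X.e0 := LinearMap.ext fun σ => Sec.ext fun s p x _ => by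
  by_cases h : s = ∅ <;> simp [e0_apply, h]

lemma e0_del : X.e0 * X.del = 0 := LinearMap.ext fun σ => Sec.ext fun s p x hx => by
  by_cases h : s = ∅
  · subst h
    simp [e0_apply, del_apply _ _ hx]
  · simp [e0_apply, h]

lemma e0_dd : X.e0 * X.dd = X.dd * X.e0 := LinearMap.ext fun σ => Sec.ext fun s p x hx => by
  rw [Module.End.mul_apply, Module.End.mul_apply]
  cases p with
  | zero => by_cases h : s = ∅ <;> simp [e0_apply, h, dd_zero]
  | succ p =>
    rw [dd_succ _ _ hx]
    by_cases h : s = ∅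
    · simp only [e0_apply, if_pos h]
      exact dd_succ _ _ hx
    · simp [e0_apply, h, extD_zero]

lemma eqv_dd : Eqv X.dd := fun γ σ => Sec.ext fun s p x hx => by
  have hx' : γ⁻¹ • x ∈ X.Vs s := smul_mem_Vs.2 hx
  cases p with
  | zero =>
    rw [dd_zero, trS_apply, dd_zero]
    exact (tr_apply_eq_zero γ rfl).symm
  | succ p =>
    rw [dd_succ _ _ hx, trS_apply, trS_apply, X.extD_tr γ (Sec.smooth σ p hx'), tr_apply,
      tr_apply, dd_succ _ _ hx']
    ext v
    simp

lemma eqv_del : Eqv X.del := fun γ σ => Sec.ext fun s p x hx => by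
  rw [del_apply _ _ hx, trS_apply, tr_apply, del_apply _ _ (smul_mem_Vs.2 hx)]
  ext v
  simp [ContinuousAlternatingMap.sum_apply, trS_apply, tr_apply]

lemma eqv_e0 : Eqv X.e0 := fun γ σ => Sec.ext fun s p x _ => by
  by_cases h : s = ∅
  · simp [e0_apply, trS_apply, h]
  · simp only [e0_apply, trS_apply, if_neg h]
    exact (tr_apply_eq_zero γ rfl).symm

lemma eqv_Q : Eqv (Q X) := fun γ σ => Sec.ext fun s p x _ => by
  rw [Q_apply, trS_apply, tr_apply, Q_apply]
  ext v
  simp [ContinuousAlternatingMap.sum_apply, trS_apply, tr_apply, X.inv]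

lemma del_Q : X.del * Q X + Q X * X.del = 1 := LinearMap.ext fun σ => Sec.ext fun s p x hx => by
  have e : ∀ b ∈ sᶜ, X.φ b x ^ 2 • sgn b s • (X.del σ).v (insert b s) p x = X.φ b x ^ 2 •
      sgn b s • ∑ a ∈ insert b s, sgn a (insert b s) • σ.v ((insert b s).erase a) p x :=
    fun b _ => by
      by_cases h : x ∈ X.V b
      · rw [del_apply _ _ (mem_Vs_insert hx h)]
      · simp [φ_eq_zero h]
  rw [LinearMap.add_apply, Module.End.mul_apply, Module.End.mul_apply, Sec.add_val,
    del_apply _ _ hx, Q_apply, Finset.sum_congr rfl e]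
  ext v
  have := car2 s (fun b => ((X.φ b x ^ 2 : ℝ) : ℂ)) fun t => σ.v t p x v
  rw [← Complex.ofReal_sum, X.sum_sq] at this
  simpa [ContinuousAlternatingMap.sum_apply, Q_apply] using this

lemma Q_e0 : Q X * X.e0 = 0 := LinearMap.ext fun σ => Sec.ext fun s p x _ => by
  rw [Module.End.mul_apply, Q_apply]
  exact Finset.sum_eq_zero fun a _ => by simp [e0_apply]

lemma N_zero (σ : X.Sec) (s x) : ((X.dd * Q X + Q X * X.dd) σ).v s 0 x = 0 := by
  rw [LinearMap.add_apply, Module.End.mul_apply, Module.End.mul_apply, Sec.add_val, Q_apply]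
  simp [dd_zero]

lemma N_succ (σ : X.Sec) (p : ℕ) (hx : x ∈ X.Vs s) :
    ((X.dd * Q X + Q X * X.dd) σ).v s (p + 1) x = ∑ a ∈ sᶜ, (-1 : ℂ) ^ s.card •
      wedge (dfun n (fun y => X.φ a y ^ 2) x) (sgn a s • σ.v (insert a s) p x) := by
  rw [LinearMap.add_apply, Module.End.mul_apply, Module.End.mul_apply, Sec.add_val, Q_apply,
    dd_succ _ _ hx, show (Q X σ).v s p = fun y => ∑ a ∈ sᶜ, term σ s p a y from rfl,
    extD_sum fun a _ => (term_spec σ p a hx).1, Finset.smul_sum, ← Finset.sum_add_distrib]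
  refine Finset.sum_congr rfl fun a ha => ?_
  rw [(term_spec σ p a hx).2]
  by_cases h : x ∈ X.V a
  · rw [dd_succ _ _ (mem_Vs_insert hx h),
      Finset.card_insert_of_notMem (Finset.mem_compl.1 ha), pow_succ]
    ext v
    simp only [ContinuousAlternatingMap.add_apply, ContinuousAlternatingMap.smul_apply,
      smul_eq_mul, Complex.real_smul]
    ring
  · simp [φ_eq_zero h]

lemma N_pow (k : ℕ) : ∀ (σ : X.Sec) (s p x), p < k →
    (((X.dd * Q X + Q X * X.dd) ^ k) σ).v s p x = 0 := by
  induction k with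
  | zero => intro _ _ _ _ h; exact absurd h (Nat.not_lt_zero _)
  | succ k ih =>
    intro σ s p x hp
    by_cases hx : x ∈ X.Vs s
    · rw [pow_succ', Module.End.mul_apply]
      cases p with
      | zero => exact N_zero _ _ _
      | succ p =>
        rw [N_succ _ _ hx]
        exact Finset.sum_eq_zero fun a _ => by rw [ih σ _ p x (by omega)]; simp
    · exact Sec.zero _ _ hx

lemma N_nil : IsNilpotent (X.dd * Q X + Q X * X.dd) :=
  ⟨n + 1, LinearMap.ext fun σ => Sec.ext fun s p x _ => by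
    rcases lt_or_ge p (n + 1) with h | h
    · exact N_pow _ σ s p x h
    · exact alt_eq_zero h _⟩

/-- The sum of the squared norms of all components of a given degree at a point. -/
def tot (σ : X.Sec) (p : ℕ) (x : M) : ℝ := ∑ t, nsq X.g x (σ.v t p x)

lemma tot_nonneg (σ : X.Sec) (p x) : 0 ≤ tot σ p x :=
  Finset.sum_nonneg fun _ _ => nsq_nonneg _ _ _

lemma le_tot (σ : X.Sec) (t p x) : nsq X.g x (σ.v t p x) ≤ tot σ p x :=
  Finset.single_le_sum (f := fun t => nsq X.g x (σ.v t p x)) (fun _ _ => nsq_nonneg _ _ _)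
    (Finset.mem_univ t)

lemma nsq_sum_bound {A : Finset (Fin X.m)} {α : Fin X.m → Alt n p} {B : ℝ} (hB : 0 ≤ B)
    (h : ∀ a ∈ A, nsq X.g x (α a) ≤ B) : nsq X.g x (∑ a ∈ A, α a) ≤ (X.m : ℝ) ^ 2 * B := by
  have h1 : (A.card : ℝ) ≤ X.m := by
    exact_mod_cast (Finset.card_le_univ A).trans (Fintype.card_fin _).le
  have h2 : ∑ a ∈ A, nsq X.g x (α a) ≤ A.card * B := by
    simpa using Finset.sum_le_card_nsmul A _ B h
  calc _ ≤ _ := nsq_sum_le X.g x A α
    _ ≤ (A.card : ℝ) * (A.card * B) := by gcongr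
    _ ≤ (X.m : ℝ) * (X.m * B) := by gcongr
    _ = _ := by ring

variable [BorelSpace M]

lemma good_of_le {T : Module.End ℂ X.Sec} (hT : Eqv T) {c : ℝ} (hc : 0 ≤ c)
    (h : ∀ s p, ∃ p', ∀ σ, ∀ x ∈ X.Vs s, nsq X.g x ((T σ).v s p x) ≤ c * tot σ p' x) :
    Good T := by
  refine ⟨hT, ENNReal.ofReal c * Fintype.card (Finset (Fin X.m)), by finiteness,
    fun D σ _ => iSup₂_le fun s p => ?_⟩
  obtain ⟨p', h⟩ := h s p
  calc D.nrm ((T σ).v s p) ≤ ∫⁻ x in D.F, ENNReal.ofReal c *
        ∑ t, ENNReal.ofReal (nsq X.g x (σ.v t p' x)) ∂X.μ := lintegral_mono fun x => by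
        rw [← ENNReal.ofReal_sum_of_nonneg fun _ _ => nsq_nonneg _ _ _, ← ENNReal.ofReal_mul hc]
        refine ENNReal.ofReal_le_ofReal ?_
        by_cases hx : x ∈ X.Vs s
        · exact h σ x hx
        · rw [Sec.zero _ _ hx, nsq_zero]
          exact mul_nonneg hc (tot_nonneg σ p' x)
    _ = ENNReal.ofReal c * ∑ t, D.nrm (σ.v t p') := by
        rw [lintegral_const_mul' _ _ ENNReal.ofReal_ne_top,
          lintegral_finsetSum _ fun t _ => Sec.measurable σ t p']
        rfl
    _ ≤ _ := by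
        rw [mul_assoc]
        gcongr
        simpa using Finset.sum_le_card_nsmul Finset.univ _ _ fun t _ => le_nrmS D σ t p'

lemma good_del : Good X.del :=
  good_of_le eqv_del (sq_nonneg (X.m : ℝ)) fun s p => ⟨p, fun σ x hx => by
    rw [del_apply _ _ hx]
    refine nsq_sum_bound (tot_nonneg _ _ _) fun a _ => ?_
    rw [nsq_smul, norm_sgn, one_pow, one_mul]
    exact le_tot _ _ _ _⟩

lemma good_e0 : Good X.e0 :=
  good_of_le eqv_e0 zero_le_one fun s p => ⟨p, fun σ x _ => by
    by_cases h : s = ∅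
    · simpa [e0_apply, h] using le_tot σ ∅ p x
    · simpa [e0_apply, h] using tot_nonneg σ p x⟩

lemma good_Q : Good (Q X) :=
  good_of_le eqv_Q (sq_nonneg (X.m : ℝ)) fun s p => ⟨p, fun σ x _ => by
    rw [Q_apply]
    refine nsq_sum_bound (tot_nonneg _ _ _) fun a _ => ?_
    rw [nsq_rsmul, nsq_smul, norm_sgn, one_pow, one_mul]
    refine le_trans (mul_le_of_le_one_left (nsq_nonneg _ _ _) ?_) (le_tot _ _ _ _)
    exact pow_le_one₀ (sq_nonneg _) (φ_sq_le a x)⟩

lemma good_N : Good (X.dd * Q X + Q X * X.dd) := by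
  have hc : 0 ≤ cW n * (4 * X.cφ) := mul_nonneg (cW_nonneg n) (by linarith [X.cφ_nonneg])
  refine good_of_le ((eqv_dd.mul eqv_Q).add (eqv_Q.mul eqv_dd))
    (mul_nonneg (sq_nonneg (X.m : ℝ)) hc) fun s p => ⟨p - 1, fun σ x hx => ?_⟩
  cases p with
  | zero =>
    rw [N_zero, nsq_zero]
    exact mul_nonneg (mul_nonneg (sq_nonneg _) hc) (tot_nonneg _ _ _)
  | succ p =>
    rw [N_succ _ _ hx, mul_assoc]
    refine nsq_sum_bound (mul_nonneg hc (tot_nonneg _ _ _)) fun a _ => ?_
    rw [nsq_smul, norm_pow, norm_neg, norm_one, one_pow, one_pow, one_mul]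
    refine (nsq_wedge_le' X.g x (by linarith [X.cφ_nonneg]) (dfun_φ_sq_le a x) _).trans ?_
    rw [nsq_smul, norm_sgn, one_pow, one_mul]
    exact mul_le_mul_of_nonneg_left (le_tot σ _ p x) hc

theorem car : CarStmt.{u, v} := fun _ _ _ _ _ _ _ _ _ _ _ X =>
  ⟨dd_dd, del_del, dd_del, e0_e0, e0_del, e0_dd, eqv_dd, good_del, good_e0, Q X, del_Q, Q_e0,
    good_Q, good_N, N_nil⟩

end Pool.Agent.MP_d9582c_gt.H61
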